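import Pool.Agent.Helper69.MF.StB

/-!
# Project MF, module G2: limits of normal points (regular points)
-/

set_option autoImplicit false

open Set Topology Filter MeasureTheory
open Pool.Agent.Helper31.CY Pool.Agent.Helper69.MF

namespace Pool.Agent.Helper55.MF

private theorem dt_Jv (v x : E3) : dt v (Jv x) = v 1 * x 0 - v 0 * x 1 := by
  simp [dt, Jv, pt]
  ring

private theorem tendsto_dt_Jv (v : E3) {z : ℕ → E3} {y : E3} (hz : Tendsto z atTop (𝓝 y)) :
    Tendsto (fun n => dt v (Jv (z n))) atTop (𝓝 (dt v (Jv y))) := by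
  have h : Continuous fun x : E3 => dt v (Jv x) := by
    have : (fun x : E3 => dt v (Jv x)) = fun x : E3 => v 1 * x 0 - v 0 * x 1 := by
      funext x
      exact dt_Jv v x
    rw [this]
    fun_prop
  exact (h.tendsto y).comp hz

theorem hG2 : StTC2 → StG2 := by
  intro hTC2 r0 r1 h S y z hyS hyΓ hreg hrad hNP hz
  refine ⟨hyS, hyΓ, hreg, hrad, ?_⟩
  obtain ⟨f, U, hU, hyU, hf, hf0, hfS, -⟩ := hreg
  have hf1 : ContDiffOn ℝ 1 f U := hf.of_le (by norm_num)
  have hcont : ContinuousAt (fun x => fderiv ℝ f x) y :=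
    (hf1.continuousOn_fderiv_of_isOpen hU le_rfl).continuousAt (hU.mem_nhds hyU)
  have hlim : ∀ v : E3, Tendsto (fun n => fderiv ℝ f (z n) v) atTop (𝓝 (fderiv ℝ f y v)) := by
    intro v
    have h1 : Tendsto (fun n => fderiv ℝ f (z n)) atTop (𝓝 (fderiv ℝ f y)) :=
      hcont.tendsto.comp hz
    exact ((ContinuousLinearMap.apply ℝ ℝ v).continuous.tendsto _).comp h1
  have hzU : ∀ᶠ n in atTop, z n ∈ U := hz.eventually (hU.mem_nhds hyU)
  intro v hv
  rw [hTC2 S y f U hU hyU hf1 (hf0 y hyU) ((hfS y hyU).1 hyS) hfS] at hv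
  obtain ⟨w, hw⟩ : ∃ w : E3, fderiv ℝ f y w ≠ 0 := by
    by_contra hcon
    push Not at hcon
    exact hf0 y hyU (ContinuousLinearMap.ext hcon)
  have hw' : ∀ᶠ n in atTop, fderiv ℝ f (z n) w ≠ 0 := (hlim w).eventually_ne hw
  have heq : ∀ᶠ n in atTop, dt v (Jv (z n)) =
      fderiv ℝ f (z n) v / fderiv ℝ f (z n) w * dt w (Jv (z n)) := by
    filter_upwards [hzU, hw'] with n hn hwn
    obtain ⟨h1, -, -, -, h5⟩ := hNP n
    have h6 := h5 (v - (fderiv ℝ f (z n) v / fderiv ℝ f (z n) w) • w) (by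
      rw [hTC2 S (z n) f U hU hn hf1 (hf0 _ hn) ((hfS _ hn).1 h1) hfS, map_sub, map_smul,
        smul_eq_mul, div_mul_cancel₀ _ hwn, sub_self])
    rw [dt_Jv] at h6 ⊢
    rw [dt_Jv]
    simp only [PiLp.sub_apply, PiLp.smul_apply, smul_eq_mul] at h6
    linarith
  have h1 : Tendsto (fun n => fderiv ℝ f (z n) v / fderiv ℝ f (z n) w * dt w (Jv (z n))) atTop
      (𝓝 (fderiv ℝ f y v / fderiv ℝ f y w * dt w (Jv y))) :=
    ((hlim v).div (hlim w) hw).mul (tendsto_dt_Jv w hz)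
  have h2 := tendsto_nhds_unique ((tendsto_congr' heq).1 (tendsto_dt_Jv v hz)) h1
  rw [h2, hv, zero_div, zero_mul]

end Pool.Agent.Helper55.MF
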